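import Mathlib

set_option autoImplicit false

namespace Pool.Agent.NH69.RB

open Finset

/-- The height function of the cycle lemma. -/
def hgt (f : ℕ → ℕ) (x : ℕ) : ℤ := (∑ i ∈ range x, (f i : ℤ)) - x

theorem hgt_add (f : ℕ → ℕ) (x s : ℕ) :
    hgt f (x + s) = hgt f x + (∑ i ∈ range s, (f (x + i) : ℤ)) - s := by
  unfold hgt
  rw [Finset.sum_range_add]
  push_cast
  ring

theorem per_sum (f : ℕ → ℕ) (Q : ℕ) (hper : ∀ x, f (x + Q) = f x) (x : ℕ) :
    ∑ i ∈ range Q, f (x + i) = ∑ i ∈ range Q, f i := by
  induction x with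
  | zero => simp
  | succ x ih =>
    rw [← ih]
    have h1 := Finset.sum_range_succ (fun i => f (x + i)) Q
    have h2 := Finset.sum_range_succ' (fun i => f (x + i)) Q
    simp only [add_zero, hper] at h1 h2
    have h3 : ∑ i ∈ range Q, f (x + 1 + i) = ∑ i ∈ range Q, f (x + (i + 1)) := by
      apply Finset.sum_congr rfl
      intro i _
      congr 1
      ring
    rw [h3]
    omega

/-- The cycle lemma: at least `Q - l` of the `Q` rotations are good. -/
theorem rot_count (Q l : ℕ) (hQ : 0 < Q) (f : ℕ → ℕ) (hper : ∀ x, f (x + Q) = f x)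
    (hsum : ∑ i ∈ range Q, f i = l) (hl : l ≤ Q) :
    Q - l ≤ #{r ∈ range Q | ∀ s < Q, ∑ i ∈ range (s + 1), f (r + i) ≤ s} := by
  classical
  have hne : (range Q).Nonempty := Finset.nonempty_range_iff.mpr hQ.ne'
  set M : ℕ → ℤ := fun x => (range Q).sup' hne (fun i => hgt f (x + i)) with hM
  have hshift : ∀ x, hgt f (x + Q) = hgt f x - (Q - l) := by
    intro x
    rw [hgt_add]
    have h1 := per_sum f Q hper x
    rw [hsum] at h1
    have h2 : (∑ i ∈ range Q, (f (x + i) : ℤ)) = l := by
      rw [← h1]; push_cast; rfl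
    rw [h2]; ring
  have hMQ : M Q = M 0 - (Q - l) := by
    simp only [hM]
    have h1 : ∀ i, hgt f (Q + i) = hgt f (0 + i) - (Q - l) := by
      intro i
      have := hshift i
      rw [add_comm Q i, zero_add]
      exact this
    apply le_antisymm
    · apply Finset.sup'_le
      intro i hi
      rw [h1 i]
      have := Finset.le_sup' (fun i => hgt f (0 + i)) hi
      linarith
    · rw [sub_le_iff_le_add]
      apply Finset.sup'_le
      intro i hi
      have := Finset.le_sup' (fun i => hgt f (Q + i)) hi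
      simp only [h1 i] at this
      linarith
  have hstep : ∀ x, M x - M (x + 1) ≤
      if (∀ s < Q, ∑ i ∈ range (s + 1), f (x + i) ≤ s) then 1 else 0 := by
    intro x
    have hle : ∀ i, 1 ≤ i → i ≤ Q → hgt f (x + i) ≤ M (x + 1) := by
      intro i h1 h2
      have := Finset.le_sup' (fun i => hgt f (x + 1 + i)) (b := i - 1)
        (Finset.mem_range.mpr (by omega : i - 1 < Q))
      have e : x + 1 + (i - 1) = x + i := by omega
      simp only [e] at this
      exact this
    have hMx : M x ≤ max (hgt f x) (M (x + 1)) := by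
      simp only [hM]
      apply Finset.sup'_le
      intro i hi
      rcases Nat.eq_zero_or_pos i with h | h
      · subst h; exact le_max_left _ _
      · exact le_max_of_le_right (hle i h (Finset.mem_range.mp hi).le)
    split_ifs with hgood
    · have h1 := hle 1 le_rfl hQ
      have h2 := hgt_add f x 1
      have h3 : (0 : ℤ) ≤ ∑ i ∈ range 1, (f (x + i) : ℤ) := Finset.sum_nonneg (fun i _ => by positivity)
      push_cast at h2
      rcases max_cases (hgt f x) (M (x + 1)) with ⟨h4, _⟩ | ⟨h4, _⟩
      · rw [h4] at hMx; linarith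
      · rw [h4] at hMx; linarith
    · push Not at hgood
      obtain ⟨s, hs, hbad⟩ := hgood
      have h1 := hle (s + 1) (by omega) (by omega)
      have h2 := hgt_add f x (s + 1)
      have h3 : (s : ℤ) + 1 ≤ ∑ i ∈ range (s + 1), (f (x + i) : ℤ) := by exact_mod_cast hbad
      push_cast at h2
      have h4 : hgt f x ≤ M (x + 1) := by linarith
      rw [max_eq_right h4] at hMx
      linarith
  have htel : M 0 - M Q ≤ ∑ x ∈ range Q,
      (if (∀ s < Q, ∑ i ∈ range (s + 1), f (x + i) ≤ s) then (1 : ℤ) else 0) := by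
    rw [← Finset.sum_range_sub']
    exact Finset.sum_le_sum (fun x _ => hstep x)
  rw [Finset.card_filter]
  have h5 : ((Q - l : ℕ) : ℤ) = Q - l := by push_cast [Nat.cast_sub hl]; ring
  have h6 : ((Q - l : ℕ) : ℤ) ≤ ∑ x ∈ range Q,
      (if (∀ s < Q, ∑ i ∈ range (s + 1), f (x + i) ≤ s) then (1 : ℤ) else 0) := by
    rw [h5]; linarith
  exact_mod_cast h6

/-- Good words over `ZMod Q`. -/
def Good {ι : Type*} [Fintype ι] (Q : ℕ) [NeZero Q] (W : ι → ZMod Q) : Prop :=
  ∀ s < Q, #{j | (W j).val ≤ s} ≤ s

open Classical in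
theorem occ {ι : Type*} [Fintype ι] (Q : ℕ) [NeZero Q] (W : ι → ZMod Q) (r s : ℕ) (hs : s < Q) :
    ∑ i ∈ range (s + 1), #{j | W j = ((r + i : ℕ) : ZMod Q)} = #{j | (W j - (r : ZMod Q)).val ≤ s} := by
  rw [← Finset.card_biUnion]
  · congr 1
    ext j
    simp only [Finset.mem_biUnion, Finset.mem_range, Finset.mem_filter, Finset.mem_univ, true_and]
    constructor
    · rintro ⟨i, hi, h⟩
      rw [h]
      push_cast
      rw [add_sub_cancel_left, ZMod.val_natCast, Nat.mod_eq_of_lt (by omega)]
      omega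
    · intro h
      refine ⟨(W j - (r : ZMod Q)).val, by omega, ?_⟩
      push_cast
      rw [ZMod.natCast_zmod_val]
      ring
  · intro a ha b hb hab
    rw [Function.onFun, Finset.disjoint_left]
    intro j h1 h2
    simp only [Finset.mem_filter, Finset.mem_univ, true_and] at h1 h2
    apply hab
    have h3 : ((r + a : ℕ) : ZMod Q) = ((r + b : ℕ) : ZMod Q) := h1.symm.trans h2
    push_cast at h3
    have h4 : (a : ZMod Q) = (b : ZMod Q) := add_left_cancel h3
    have h5 := congrArg ZMod.val h4
    simp only [Finset.coe_range, Set.mem_Iio] at ha hb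
    rw [ZMod.val_natCast, ZMod.val_natCast, Nat.mod_eq_of_lt (by omega),
      Nat.mod_eq_of_lt (by omega)] at h5
    exact h5

open Classical in
theorem good_count {ι : Type*} [Fintype ι] [DecidableEq ι] (Q : ℕ) [NeZero Q] (hl : Fintype.card ι ≤ Q) :
    (Q - Fintype.card ι) * Q ^ (Fintype.card ι) ≤ Q * #{W : ι → ZMod Q | Good Q W} := by
  have hQ : 0 < Q := NeZero.pos Q
  have key : ∀ W : ι → ZMod Q, Q - Fintype.card ι ≤
      #((range Q).filter (fun r : ℕ => Good Q (fun j => W j - ((r : ℕ) : ZMod Q)))) := by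
    intro W
    have h1 := rot_count Q (Fintype.card ι) hQ (fun x => #{j | W j = (x : ZMod Q)})
      (fun x => by simp) (by
        have := occ Q W 0 (Q - 1) (by omega)
        rw [show Q - 1 + 1 = Q by omega] at this
        simp only [zero_add] at this
        rw [this]
        rw [Finset.filter_true_of_mem, Finset.card_univ]
        intro j _
        have := ZMod.val_lt (W j - ((0 : ℕ) : ZMod Q))
        omega) hl
    refine h1.trans (Finset.card_le_card ?_)
    intro r hr
    rw [Finset.mem_filter] at hr ⊢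
    refine ⟨hr.1, fun s hs => ?_⟩
    have h2 := hr.2 s hs
    rw [occ Q W r s hs] at h2
    exact h2
  have h1 : (Q - Fintype.card ι) * Q ^ (Fintype.card ι) ≤
      ∑ W : ι → ZMod Q, #((range Q).filter (fun r : ℕ => Good Q (fun j => W j - ((r : ℕ) : ZMod Q)))) := by
    have := Finset.card_nsmul_le_sum (Finset.univ : Finset (ι → ZMod Q))
      (fun W => #((range Q).filter (fun r : ℕ => Good Q (fun j => W j - ((r : ℕ) : ZMod Q))))) (Q - Fintype.card ι)
      (fun W _ => key W)
    rw [Finset.card_univ, Fintype.card_fun, ZMod.card, smul_eq_mul, mul_comm] at this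
    exact this
  refine h1.trans (le_of_eq ?_)
  simp only [Finset.card_filter]
  rw [Finset.sum_comm]
  have h2 : ∀ r ∈ range Q, (∑ W : ι → ZMod Q, if Good Q (fun j => W j - (r : ZMod Q)) then 1 else 0)
      = ∑ W : ι → ZMod Q, if Good Q W then 1 else 0 := by
    intro r _
    exact Fintype.sum_equiv (Equiv.subRight (fun _ : ι => (r : ZMod Q))) _ _ (fun W => rfl)
  rw [Finset.sum_congr rfl h2, Finset.sum_const, Finset.card_range, smul_eq_mul]

end Pool.Agent.NH69.RB
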