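import Mathlib

set_option autoImplicit false

namespace Pool.Agent.NH69.RB

open Finset

section
variable {V : Type*} [DecidableEq V] (m : V → V → ℕ) (S : Finset V)

open Classical in
/-- One step: add the vertices of `S` reached from `T` by an edge of multiplicity at least `s`. -/
noncomputable def step (s : ℕ) (T : Finset V) : Finset V :=
  T ∪ S.filter (fun w => ∃ u ∈ T, s ≤ m u w)

/-- The vertices reached by the letters of a word. -/
noncomputable def run : (L : ℕ) → (Fin L → ℕ) → Finset V → Finset V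
  | 0, _, T => T
  | L + 1, W, T => run L (Fin.tail W) (step m S (W 0) T)

theorem step_sub (s : ℕ) (T : Finset V) (hT : T ⊆ S) : step m S s T ⊆ S := by
  unfold step
  exact Finset.union_subset hT (Finset.filter_subset _ _)

theorem sub_step (s : ℕ) (T : Finset V) : T ⊆ step m S s T := Finset.subset_union_left

theorem card_val (Q : ℕ) [NeZero Q] (a : ℕ) (ha : a < Q) :
    a + 1 ≤ #{z : ZMod Q | z.val ≤ a} := by
  classical
  rw [← Finset.card_range (a + 1)]
  apply Finset.card_le_card_of_injOn (fun i : ℕ => (i : ZMod Q))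
  · intro i hi
    have hi' : i < a + 1 := by simpa using hi
    simp only [Finset.coe_filter, Finset.mem_univ, true_and, Set.mem_setOf_eq]
    rw [ZMod.val_natCast, Nat.mod_eq_of_lt (by omega)]
    omega
  · intro i hi j hj h
    have hi' : i < a + 1 := by simpa using hi
    have hj' : j < a + 1 := by simpa using hj
    have h5 := congrArg ZMod.val h
    simp only at h5
    rw [ZMod.val_natCast, ZMod.val_natCast, Nat.mod_eq_of_lt (by omega),
      Nat.mod_eq_of_lt (by omega)] at h5
    exact h5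

theorem growth (C : ℝ) (Q : ℕ) [NeZero Q] (hmQ : ∀ u w, m u w < Q)
    (hS : ∀ T ⊆ S, T.Nonempty → T ≠ S → ∃ u ∈ T, C * #(S \ T) ≤ ∑ w ∈ S \ T, (m u w : ℝ))
    (T : Finset V) (hT : T ⊆ S) (hT0 : T.Nonempty) :
    ∑ z : ZMod Q, (#(S \ step m S z.val T) : ℝ) ≤ ((Q : ℝ) - 1 - C) * #(S \ T) := by
  classical
  by_cases hTS : T = S
  · subst hTS
    have h1 : ∀ z : ZMod Q, (#(T \ step m T z.val T) : ℝ) = 0 := by
      intro z
      rw [Finset.sdiff_eq_empty_iff_subset.mpr (sub_step m T z.val T)]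
      simp
    simp [h1]
  · obtain ⟨u, hu, hub⟩ := hS T hT hT0 hTS
    have h1 : ∀ z : ZMod Q, (#(S \ step m S z.val T) : ℝ) ≤
        ∑ w ∈ S \ T, (1 - if z.val ≤ m u w then (1 : ℝ) else 0) := by
      intro z
      have h2 : S \ step m S z.val T ⊆ (S \ T).filter (fun w => ¬ z.val ≤ m u w) := by
        intro w hw
        rw [Finset.mem_sdiff] at hw
        unfold step at hw
        rw [Finset.mem_union, Finset.mem_filter] at hw
        push Not at hw
        rw [Finset.mem_filter, Finset.mem_sdiff]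
        refine ⟨⟨hw.1, hw.2.1⟩, ?_⟩
        have := hw.2.2 hw.1 u hu
        omega
      have h3 := Finset.card_le_card h2
      have h4 : (#((S \ T).filter (fun w => ¬ z.val ≤ m u w)) : ℝ) =
          ∑ w ∈ S \ T, (1 - if z.val ≤ m u w then (1 : ℝ) else 0) := by
        rw [Finset.card_filter]
        push_cast
        apply Finset.sum_congr rfl
        intro w _
        split_ifs <;> simp_all
      rw [← h4]
      exact_mod_cast h3
    calc ∑ z : ZMod Q, (#(S \ step m S z.val T) : ℝ)
        ≤ ∑ z : ZMod Q, ∑ w ∈ S \ T, (1 - if z.val ≤ m u w then (1 : ℝ) else 0) :=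
          Finset.sum_le_sum (fun z _ => h1 z)
      _ = ∑ w ∈ S \ T, ∑ z : ZMod Q, (1 - if z.val ≤ m u w then (1 : ℝ) else 0) :=
          Finset.sum_comm
      _ ≤ ∑ w ∈ S \ T, ((Q : ℝ) - 1 - m u w) := by
          apply Finset.sum_le_sum
          intro w _
          rw [Finset.sum_sub_distrib]
          have h5 := card_val Q (m u w) (hmQ u w)
          rw [Finset.card_filter] at h5
          have h6 : ((m u w : ℝ) + 1) ≤ ∑ z : ZMod Q, if z.val ≤ m u w then (1 : ℝ) else 0 := by
            exact_mod_cast h5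
          simp only [Finset.sum_const, Finset.card_univ, ZMod.card, nsmul_eq_mul, mul_one]
          linarith
      _ = ((Q : ℝ) - 1) * #(S \ T) - ∑ w ∈ S \ T, (m u w : ℝ) := by
          rw [Finset.sum_sub_distrib]
          simp only [Finset.sum_const, nsmul_eq_mul]
          ring
      _ ≤ ((Q : ℝ) - 1 - C) * #(S \ T) := by linarith

theorem growth_word (C : ℝ) (Q : ℕ) [NeZero Q] (hmQ : ∀ u w, m u w < Q)
    (hQC : 0 ≤ (Q : ℝ) - 1 - C)
    (hS : ∀ T ⊆ S, T.Nonempty → T ≠ S → ∃ u ∈ T, C * #(S \ T) ≤ ∑ w ∈ S \ T, (m u w : ℝ))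
    (L : ℕ) : ∀ (T : Finset V), T ⊆ S → T.Nonempty →
    ∑ W : Fin L → ZMod Q, (#(S \ run m S L (fun j => (W j).val) T) : ℝ) ≤
      ((Q : ℝ) - 1 - C) ^ L * #(S \ T) := by
  induction L with
  | zero =>
    intro T hT hT0
    simp [run]
  | succ L ih =>
    intro T hT hT0
    rw [← (Fin.consEquiv (fun _ : Fin (L + 1) => ZMod Q)).sum_comp, Fintype.sum_prod_type]
    have h1 : ∀ (z : ZMod Q), ∑ W : (Fin L → ZMod Q),
        (#(S \ run m S (L + 1) (fun j =>
          ((Fin.consEquiv (fun _ : Fin (L + 1) => ZMod Q)) (z, W) j).val) T) : ℝ) ≤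
        ((Q : ℝ) - 1 - C) ^ L * #(S \ step m S z.val T) := by
      intro z
      have := ih (step m S z.val T) (step_sub m S _ T hT) (hT0.mono (sub_step m S _ T))
      refine le_trans (le_of_eq ?_) this
      apply Finset.sum_congr rfl
      intro W _
      simp only [run, Fin.consEquiv_apply, Fin.cons_zero]
      rfl
    refine (Finset.sum_le_sum (fun z _ => h1 z)).trans ?_
    rw [← Finset.mul_sum]
    have h2 := growth m S C Q hmQ hS T hT hT0
    calc ((Q : ℝ) - 1 - C) ^ L * ∑ z : ZMod Q, (#(S \ step m S z.val T) : ℝ)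
        ≤ ((Q : ℝ) - 1 - C) ^ L * (((Q : ℝ) - 1 - C) * #(S \ T)) :=
          mul_le_mul_of_nonneg_left h2 (pow_nonneg hQC L)
      _ = ((Q : ℝ) - 1 - C) ^ (L + 1) * #(S \ T) := by ring

/-- A walk of length `n` with at most `b s` edges of multiplicity at most `s`. -/
def Wk (b : ℕ → ℕ) (n : ℕ) (c : ℕ → V) : Prop :=
  (∀ j < n, 0 < m (c j) (c (j + 1))) ∧
    ∀ s, (∑ j ∈ range n, if m (c j) (c (j + 1)) ≤ s then 1 else 0) ≤ b s

omit [DecidableEq V] in
theorem Wk.mono {b b' : ℕ → ℕ} {n : ℕ} {c : ℕ → V} (h : Wk m b n c) (hb : ∀ s, b s ≤ b' s) :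
    Wk m b' n c := ⟨h.1, fun s => (h.2 s).trans (hb s)⟩

theorem run_walk (L : ℕ) : ∀ (W : Fin L → ℕ) (_ : ∀ j, 0 < W j) (T : Finset V) (w : V),
    w ∈ run m S L W T → ∃ v ∈ T, ∃ n c, c 0 = v ∧ c n = w ∧
      Wk m (fun s => ∑ j, if W j ≤ s then 1 else 0) n c := by
  induction L with
  | zero =>
    intro W hW T w hw
    refine ⟨w, hw, 0, fun _ => w, rfl, rfl, ?_, ?_⟩
    · intro j hj; omega
    · intro s; simp
  | succ L ih =>
    intro W hW T w hw
    obtain ⟨v', hv', n, c, hc0, hcn, hwk⟩ := ih (Fin.tail W) (fun j => hW j.succ)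
      (step m S (W 0) T) w hw
    unfold step at hv'
    rw [Finset.mem_union, Finset.mem_filter] at hv'
    rcases hv' with hv' | ⟨hvS, u, hu, huv⟩
    · refine ⟨v', hv', n, c, hc0, hcn, hwk.mono m ?_⟩
      intro s
      rw [Fin.sum_univ_succ]
      exact Nat.le_add_left _ _
    · refine ⟨u, hu, n + 1, fun j => Nat.casesOn j u c, rfl, hcn, ?_, ?_⟩
      · intro j hj
        cases j with
        | zero =>
          show 0 < m u (c 0)
          rw [hc0]
          exact lt_of_lt_of_le (hW 0) huv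
        | succ j => exact hwk.1 j (by omega)
      · intro s
        show _ ≤ ∑ j, if W j ≤ s then 1 else 0
        rw [Finset.sum_range_succ', Fin.sum_univ_succ, add_comm]
        refine Nat.add_le_add ?_ (hwk.2 s)
        show (if m u (c 0) ≤ s then 1 else 0) ≤ _
        rw [hc0]
        split_ifs with h1 h2 h2
        · exact le_rfl
        · exact absurd (huv.trans h1) h2
        · exact Nat.zero_le _
        · exact le_rfl

omit [DecidableEq V] in
theorem Wk.append {b1 b2 : ℕ → ℕ} {n1 n2 : ℕ} {c1 c2 : ℕ → V} (h1 : Wk m b1 n1 c1)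
    (h2 : Wk m b2 n2 c2) (h : c1 n1 = c2 0) :
    Wk m (fun s => b1 s + b2 s) (n1 + n2) (fun j => if j < n1 then c1 j else c2 (j - n1)) := by
  have e1 : ∀ j < n1, (if j + 1 < n1 then c1 (j + 1) else c2 (j + 1 - n1)) = c1 (j + 1) := by
    intro j hj
    split_ifs with h'
    · rfl
    · have : j + 1 = n1 := by omega
      rw [this, Nat.sub_self, h]
  have e2 : ∀ j, (if n1 + j < n1 then c1 (n1 + j) else c2 (n1 + j - n1)) = c2 j := by
    intro j
    rw [if_neg (by omega), Nat.add_sub_cancel_left]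
  have e3 : ∀ j, (if n1 + j + 1 < n1 then c1 (n1 + j + 1) else c2 (n1 + j + 1 - n1)) =
      c2 (j + 1) := by
    intro j
    rw [if_neg (by omega)]
    congr 1
    omega
  constructor
  · intro j hj
    by_cases hj1 : j < n1
    · simp only [hj1, if_true, e1 j hj1]
      exact h1.1 j hj1
    · obtain ⟨i, rfl⟩ := Nat.exists_eq_add_of_le (not_lt.mp hj1)
      simp only [e2, e3]
      exact h2.1 i (by omega)
  · intro s
    rw [Finset.sum_range_add]
    refine Nat.add_le_add ?_ ?_
    · refine le_trans (le_of_eq ?_) (h1.2 s)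
      apply Finset.sum_congr rfl
      intro j hj
      have hj1 := Finset.mem_range.mp hj
      simp only [hj1, if_true, e1 j hj1]
    · refine le_trans (le_of_eq ?_) (h2.2 s)
      apply Finset.sum_congr rfl
      intro j _
      simp only [e2, e3]

theorem closed_to_cycle (hm0 : ∀ v, m v v = 0) (b : ℕ → ℕ)
    (h : ∃ n, ∃ c : ℕ → V, 0 < n ∧ c 0 = c n ∧ Wk m b n c) :
    ∃ n, ∃ c : ℕ → V, 2 ≤ n ∧ c 0 = c n ∧ Wk m b n c ∧
      ∀ i j, i < n → j < n → c i = c j → i = j := by
  classical
  obtain ⟨c, hn, hc, hwk⟩ := Nat.find_spec h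
  set n := Nat.find h with hndef
  have hmin : ∀ n' < n, ¬ ∃ c : ℕ → V, 0 < n' ∧ c 0 = c n' ∧ Wk m b n' c := by
    intro n' hn'
    exact Nat.find_min h hn'
  have hinj : ∀ i j, i < j → j < n → c i ≠ c j := by
    intro i j hij hj he
    apply hmin (j - i) (by omega)
    refine ⟨fun t => c (i + t), by omega, ?_, ?_, ?_⟩
    · simp only [add_zero]
      rw [he]
      congr 1
      omega
    · intro t ht
      exact hwk.1 (i + t) (by omega)
    · intro s
      refine le_trans ?_ (hwk.2 s)
      have e : n = i + ((j - i) + (n - j)) := by omega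
      rw [e, Finset.sum_range_add, Finset.sum_range_add]
      have : (∑ x ∈ range (j - i), if m (c (i + x)) (c (i + x + 1)) ≤ s then 1 else 0) =
        (∑ x ∈ range (j - i), if m (c (i + x)) (c (i + (x + 1))) ≤ s then 1 else 0) := by
        apply Finset.sum_congr rfl
        intro x _
        rw [add_assoc]
      rw [this]
      exact (Nat.le_add_right _ _).trans (Nat.le_add_left _ _)
  refine ⟨n, c, ?_, hc, hwk, ?_⟩
  · by_contra hlt
    have h1 : n = 1 := by omega
    have h2 := hwk.1 0 hn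
    rw [zero_add] at h2
    rw [h1] at hc
    rw [hc, hm0] at h2
    omega
  · intro i j hi hj he
    rcases lt_trichotomy i j with h1 | h1 | h1
    · exact absurd he (hinj i j h1 hj)
    · exact h1
    · exact absurd he.symm (hinj j i h1 hi)

end

end Pool.Agent.NH69.RB
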