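import Pool.Agent.NH69.RB.Cyc
import Pool.Agent.NH69.RB.Grow

set_option autoImplicit false

namespace Pool.Agent.NH69.RB

open Finset

theorem numeric (a : ℕ) (ha : 1 ≤ a) :
    2 * (16 * a : ℝ) * ((16 * a - 1) * (16 * a - 1 - 84 / 25)) ^ (5 * a) <
      (6 * a : ℝ) * (16 * a) ^ (10 * a) := by
  have ha' : (1 : ℝ) ≤ a := by exact_mod_cast ha
  have hQ : (0 : ℝ) < 16 * a := by linarith
  have h1 : (16 * (a : ℝ) - 1) = (16 * a) * (1 - 1 / (16 * a)) := by field_simp
  have h2 : (16 * (a : ℝ) - 1 - 84 / 25) = (16 * a) * (1 - (109 / 25) / (16 * a)) := by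
    field_simp; ring
  have e1 : (0 : ℝ) ≤ 1 - 1 / (16 * a) := by
    rw [sub_nonneg, div_le_one hQ]; linarith
  have e2 : (0 : ℝ) ≤ 1 - (109 / 25) / (16 * a) := by
    rw [sub_nonneg, div_le_one hQ]; linarith
  have h3 : (1 - 1 / (16 * a)) * (1 - (109 / 25) / (16 * a)) ≤
      Real.exp (-(134 / 25) / (16 * a)) := by
    have f1 := Real.one_sub_le_exp_neg (1 / (16 * (a : ℝ)))
    have f2 := Real.one_sub_le_exp_neg ((109 / 25) / (16 * (a : ℝ)))
    calc (1 - 1 / (16 * (a : ℝ))) * (1 - (109 / 25) / (16 * a))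
        ≤ Real.exp (-(1 / (16 * (a : ℝ)))) * Real.exp (-((109 / 25) / (16 * (a : ℝ)))) :=
          mul_le_mul f1 f2 e2 (Real.exp_pos _).le
      _ = Real.exp (-(134 / 25) / (16 * a)) := by
          rw [← Real.exp_add]; congr 1; field_simp; ring
  have h4 : ((1 - 1 / (16 * (a : ℝ))) * (1 - (109 / 25) / (16 * a))) ^ (5 * a) ≤
      Real.exp (-(67 / 40)) := by
    calc ((1 - 1 / (16 * (a : ℝ))) * (1 - (109 / 25) / (16 * a))) ^ (5 * a)
        ≤ (Real.exp (-(134 / 25) / (16 * a))) ^ (5 * a) :=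
          pow_le_pow_left₀ (mul_nonneg e1 e2) h3 _
      _ = Real.exp (-(67 / 40)) := by
          rw [← Real.exp_nat_mul]; congr 1; push_cast; field_simp; norm_num
  have h5 : Real.exp (-(67 / 40)) < 3 / 16 := by
    have g1 : (16 / 3 : ℝ) ^ 40 < (Real.exp (67 / 40)) ^ 40 := by
      rw [← Real.exp_nat_mul]
      have : ((40 : ℕ) : ℝ) * (67 / 40) = ((67 : ℕ) : ℝ) * 1 := by norm_num
      rw [this, Real.exp_nat_mul]
      have g2 := Real.exp_one_gt_d9
      have g3 : (2.7182818283 : ℝ) ^ 67 < (Real.exp 1) ^ 67 :=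
        pow_lt_pow_left₀ g2 (by norm_num) (by norm_num)
      have g4 : (16 / 3 : ℝ) ^ 40 < (2.7182818283 : ℝ) ^ 67 := by norm_num
      exact g4.trans g3
    have g5 : (16 / 3 : ℝ) < Real.exp (67 / 40) :=
      lt_of_pow_lt_pow_left₀ 40 (Real.exp_pos _).le g1
    rw [Real.exp_neg, inv_lt_comm₀ (Real.exp_pos _) (by norm_num)]
    norm_num
    linarith
  have h6 : ((16 * (a : ℝ) - 1) * (16 * a - 1 - 84 / 25)) ^ (5 * a) =
      (16 * a) ^ (10 * a) * ((1 - 1 / (16 * (a : ℝ))) * (1 - (109 / 25) / (16 * a))) ^ (5 * a) := by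
    have e3 : (10 * a) = 2 * (5 * a) := by ring
    have e4 : (16 * (a : ℝ) * (1 - 1 / (16 * a)) * (16 * a * (1 - (109 / 25) / (16 * a)))) =
        (16 * a) ^ 2 * ((1 - 1 / (16 * (a : ℝ))) * (1 - (109 / 25) / (16 * a))) := by ring
    rw [h2, h1, e3, e4, mul_pow, ← pow_mul]
  rw [h6]
  have h7 : (0 : ℝ) < (16 * a) ^ (10 * a) := pow_pos hQ _
  calc 2 * (16 * a : ℝ) * ((16 * a) ^ (10 * a) *
        ((1 - 1 / (16 * (a : ℝ))) * (1 - (109 / 25) / (16 * a))) ^ (5 * a))
      ≤ 2 * (16 * a : ℝ) * ((16 * a) ^ (10 * a) * Real.exp (-(67 / 40))) := by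
        gcongr
    _ < 2 * (16 * a : ℝ) * ((16 * a) ^ (10 * a) * (3 / 16)) := by
        gcongr
    _ = (6 * a : ℝ) * (16 * a) ^ (10 * a) := by ring

open Classical in
theorem exists_min {V : Type*} [Fintype V] [Nonempty V] (m : V → V → ℕ) (hm0 : ∀ v, m v v = 0)
    (C : ℝ) (hC : 0 < C) (hdeg : ∀ v, C * Fintype.card V ≤ ∑ w, (m v w : ℝ)) :
    ∃ S : Finset V, 2 ≤ #S ∧
      ∀ T ⊆ S, T.Nonempty → T ≠ S → ∃ u ∈ T, C * #(S \ T) ≤ ∑ w ∈ S \ T, (m u w : ℝ) := by
  set P : Finset (Finset V) := Finset.univ.filter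
    (fun S : Finset V => S.Nonempty ∧ ∀ v ∈ S, C * #S ≤ ∑ w ∈ S, (m v w : ℝ)) with hP
  have hPne : P.Nonempty := by
    refine ⟨Finset.univ, ?_⟩
    rw [hP, Finset.mem_filter]
    exact ⟨Finset.mem_univ _, Finset.univ_nonempty, fun v _ => by
      rw [Finset.card_univ]; exact hdeg v⟩
  obtain ⟨S, hS, hmin⟩ := Finset.exists_min_image P (fun S => #S) hPne
  rw [hP, Finset.mem_filter] at hS
  obtain ⟨_, hSne, hSd⟩ := hS
  refine ⟨S, ?_, ?_⟩
  · by_contra hlt
    have h1 : #S = 1 := by
      have := hSne.card_pos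
      omega
    obtain ⟨v, hv⟩ := Finset.card_eq_one.mp h1
    have := hSd v (by rw [hv]; exact Finset.mem_singleton_self v)
    rw [hv] at this
    simp only [Finset.card_singleton, Finset.sum_singleton, hm0, Nat.cast_zero, Nat.cast_one,
      mul_one] at this
    linarith
  · intro T hTS hT0 hne
    have hTlt : #T < #S := Finset.card_lt_card (lt_of_le_of_ne hTS hne)
    have hTP : T ∉ P := fun h => absurd (hmin T h) (not_le.mpr hTlt)
    rw [hP, Finset.mem_filter] at hTP
    have : ¬ ∀ v ∈ T, C * #T ≤ ∑ w ∈ T, (m v w : ℝ) := fun h =>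
      hTP ⟨Finset.mem_univ _, hT0, h⟩
    push Not at this
    obtain ⟨u, hu, hlt⟩ := this
    refine ⟨u, hu, ?_⟩
    have h1 := hSd u (hTS hu)
    have h2 := Finset.sum_sdiff (f := fun w => (m u w : ℝ)) hTS
    have h3 : (#(S \ T) : ℝ) = #S - #T := by
      rw [Finset.card_sdiff_of_subset hTS, Nat.cast_sub (Finset.card_le_card hTS)]
    rw [h3]
    linarith

open Classical in
/-- A closed walk with at most `s` edges of multiplicity at most `s`, for every `s`. -/
theorem exists_closed {V : Type*} [Fintype V] [Nonempty V] (m : V → V → ℕ)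
    (hm0 : ∀ v, m v v = 0) (k : ℕ) (hmk : ∀ u w, m u w ≤ k)
    (hdeg : ∀ v, (84 / 25 : ℝ) * Fintype.card V ≤ ∑ w, (m v w : ℝ)) :
    ∃ n, ∃ c : ℕ → V, 0 < n ∧ c 0 = c n ∧ Wk m (fun s => s) n c := by
  obtain ⟨S, hS2, hS⟩ := exists_min m hm0 (84 / 25) (by norm_num) hdeg
  by_contra hcon
  set a : ℕ := k + 1 with ha
  set Q : ℕ := 16 * a with hQdef
  set L : ℕ := 5 * a with hL
  have : NeZero Q := ⟨by omega⟩
  have hmQ : ∀ u w, m u w < Q := fun u w => lt_of_le_of_lt (hmk u w) (by omega)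
  have ha1 : (1 : ℝ) ≤ a := by
    have : 1 ≤ a := by omega
    exact_mod_cast this
  have hQr : (Q : ℝ) = 16 * a := by rw [hQdef]; push_cast; ring
  have hQC : 0 ≤ (Q : ℝ) - 1 - 84 / 25 := by rw [hQr]; linarith
  set D : ℝ := (Q : ℝ) - 1 - 84 / 25 with hD
  -- good words never give both connections
  have hno : ∀ (W1 W2 : Fin L → ZMod Q), Good Q (Sum.elim W1 W2) → ∀ v w, v ≠ w →
      ¬ (w ∈ run m S L (fun j => (W1 j).val) {v} ∧ v ∈ run m S L (fun j => (W2 j).val) {w}) := by
    intro W1 W2 hg v w hvw ⟨hw, hv⟩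
    have hz := hg 0 (NeZero.pos Q)
    have hz' : ∀ j, 0 < (Sum.elim W1 W2 j).val := by
      intro j
      by_contra h0
      have : j ∈ (Finset.univ.filter (fun j => (Sum.elim W1 W2 j).val ≤ 0)) := by
        rw [Finset.mem_filter]; exact ⟨Finset.mem_univ _, by omega⟩
      have := Finset.card_pos.mpr ⟨j, this⟩
      omega
    obtain ⟨v1, hv1, n1, c1, h10, h1n, hk1⟩ := run_walk m S L _ (fun j => hz' (Sum.inl j)) {v} w hw
    obtain ⟨w1, hw1, n2, c2, h20, h2n, hk2⟩ := run_walk m S L _ (fun j => hz' (Sum.inr j)) {w} v hv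
    rw [Finset.mem_singleton] at hv1 hw1
    subst hv1 hw1
    have happ := Wk.append m hk1 hk2 (h1n.trans h20.symm)
    have hn1 : 0 < n1 := by
      rcases Nat.eq_zero_or_pos n1 with h | h
      · subst h; exact absurd (h10.symm.trans h1n) hvw
      · exact h
    apply hcon
    refine ⟨n1 + n2, _, by omega, ?_, happ.mono m ?_⟩
    · simp only [hn1, if_true]
      rw [if_neg (by omega), Nat.add_sub_cancel_left, h10, h2n]
    · intro s
      simp only [Sum.elim_inl, Sum.elim_inr]
      rcases Nat.lt_or_ge s Q with hs | hs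
      · have := hg s hs
        rw [Finset.card_filter, Fintype.sum_sum_type] at this
        simpa using this
      · have hLQ : L + L ≤ s := by omega
        refine le_trans (Nat.add_le_add (b := L) (d := L) ?_ ?_) hLQ
        · refine (Finset.sum_le_card_nsmul _ _ 1 (fun j _ => by split_ifs <;> omega)).trans ?_
          simp
        · refine (Finset.sum_le_card_nsmul _ _ 1 (fun j _ => by split_ifs <;> omega)).trans ?_
          simp
  -- counting
  set F : (Fin L → ZMod Q) → ℝ := fun W =>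
    ∑ v ∈ S, (#(S \ run m S L (fun j => (W j).val) {v}) : ℝ) with hF
  have hF0 : ∀ W, 0 ≤ F W := fun W => Finset.sum_nonneg (fun v _ => by positivity)
  have hFsum : ∑ W, F W ≤ #S * (D ^ L * (#S - 1)) := by
    rw [hF, Finset.sum_comm]
    rw [← nsmul_eq_mul]
    apply Finset.sum_le_card_nsmul
    intro v hv
    have := growth_word m S (84 / 25) Q hmQ hQC hS L {v} (Finset.singleton_subset_iff.mpr hv)
      (Finset.singleton_nonempty v)
    refine this.trans (le_of_eq ?_)
    have : (#(S \ {v}) : ℝ) = #S - 1 := by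
      rw [Finset.card_sdiff_of_subset (Finset.singleton_subset_iff.mpr hv), Finset.card_singleton,
        Nat.cast_sub (by omega)]
      simp
    rw [this]
  have hpair : ∀ (W1 W2 : Fin L → ZMod Q), Good Q (Sum.elim W1 W2) →
      (#S : ℝ) * (#S - 1) ≤ F W1 + F W2 := by
    intro W1 W2 hg
    have h1 : ∀ v ∈ S, ∀ w ∈ S, (if v = w then (0 : ℝ) else 1) ≤
        (if w ∈ S \ run m S L (fun j => (W1 j).val) {v} then 1 else 0) +
        (if v ∈ S \ run m S L (fun j => (W2 j).val) {w} then 1 else 0) := by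
      intro v hv w hw
      by_cases hvw : v = w
      · rw [if_pos hvw]; positivity
      · rw [if_neg hvw]
        have := hno W1 W2 hg v w hvw
        rw [not_and_or] at this
        simp only [Finset.mem_sdiff, hv, hw, true_and]
        rcases this with h | h
        · rw [if_pos h]
          have : (0 : ℝ) ≤ if v ∉ run m S L (fun j => (W2 j).val) {w} then 1 else 0 := by positivity
          linarith
        · rw [if_pos h]
          have : (0 : ℝ) ≤ if w ∉ run m S L (fun j => (W1 j).val) {v} then 1 else 0 := by positivity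
          linarith
    have h2 : (#S : ℝ) * (#S - 1) = ∑ v ∈ S, ∑ w ∈ S, (if v = w then (0 : ℝ) else 1) := by
      have : ∀ v ∈ S, ∑ w ∈ S, (if v = w then (0 : ℝ) else 1) = #S - 1 := by
        intro v hv
        have e : ∀ w, (if v = w then (0 : ℝ) else 1) = 1 - (if v = w then 1 else 0) := by
          intro w; split_ifs <;> norm_num
        simp only [e, Finset.sum_sub_distrib, Finset.sum_ite_eq, hv, if_true, Finset.sum_const,
          nsmul_eq_mul, mul_one]
      rw [Finset.sum_congr rfl this, Finset.sum_const, nsmul_eq_mul]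
    have h3 : F W1 = ∑ v ∈ S, ∑ w ∈ S,
        (if w ∈ S \ run m S L (fun j => (W1 j).val) {v} then (1 : ℝ) else 0) := by
      rw [hF]
      apply Finset.sum_congr rfl
      intro v _
      rw [← Finset.sum_filter, Finset.sum_const, nsmul_eq_mul, mul_one]
      congr 2
      ext w
      simp only [Finset.mem_filter, Finset.mem_sdiff]
      tauto
    have h4 : F W2 = ∑ v ∈ S, ∑ w ∈ S,
        (if v ∈ S \ run m S L (fun j => (W2 j).val) {w} then (1 : ℝ) else 0) := by
      rw [hF, Finset.sum_comm]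
      apply Finset.sum_congr rfl
      intro v _
      rw [← Finset.sum_filter, Finset.sum_const, nsmul_eq_mul, mul_one]
      congr 2
      ext w
      simp only [Finset.mem_filter, Finset.mem_sdiff]
      tauto
    rw [h2, h3, h4, ← Finset.sum_add_distrib]
    apply Finset.sum_le_sum
    intro v hv
    rw [← Finset.sum_add_distrib]
    exact Finset.sum_le_sum (fun w hw => h1 v hv w hw)
  -- words without the letter zero
  set N : Finset (Fin L → ZMod Q) := Fintype.piFinset (fun _ => Finset.univ.erase (0 : ZMod Q))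
    with hN
  have hNcard : (#N : ℝ) = ((Q : ℝ) - 1) ^ L := by
    rw [hN, Fintype.card_piFinset]
    simp only [Finset.prod_const, Finset.card_univ, Fintype.card_fin]
    rw [Finset.card_erase_of_mem (Finset.mem_univ _), Finset.card_univ, ZMod.card]
    push_cast [Nat.cast_sub (NeZero.pos Q)]
    rfl
  have hgN : ∀ (W1 W2 : Fin L → ZMod Q), Good Q (Sum.elim W1 W2) → W1 ∈ N ∧ W2 ∈ N := by
    intro W1 W2 hg
    have hz := hg 0 (NeZero.pos Q)
    have hz' : ∀ j, Sum.elim W1 W2 j ≠ 0 := by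
      intro j h0
      have : j ∈ (Finset.univ.filter (fun j => (Sum.elim W1 W2 j).val ≤ 0)) := by
        rw [Finset.mem_filter, h0]; exact ⟨Finset.mem_univ _, by simp⟩
      have := Finset.card_pos.mpr ⟨j, this⟩
      omega
    rw [hN, Fintype.mem_piFinset, Fintype.mem_piFinset]
    exact ⟨fun j => Finset.mem_erase.mpr ⟨hz' (Sum.inl j), Finset.mem_univ _⟩,
      fun j => Finset.mem_erase.mpr ⟨hz' (Sum.inr j), Finset.mem_univ _⟩⟩
  have hS1 : (0 : ℝ) < #S * (#S - 1) := by
    have : (2 : ℝ) ≤ #S := by exact_mod_cast hS2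
    nlinarith
  set g : ℕ := #{W : Fin L ⊕ Fin L → ZMod Q | Good Q W} with hg
  have hgsum : (g : ℝ) = ∑ W1 : Fin L → ZMod Q, ∑ W2 : Fin L → ZMod Q,
      if Good Q (Sum.elim W1 W2) then (1 : ℝ) else 0 := by
    rw [hg, Finset.card_filter]
    push_cast
    rw [← (Equiv.sumArrowEquivProdArrow (Fin L) (Fin L) (ZMod Q)).symm.sum_comp,
      Fintype.sum_prod_type]
    rfl
  have hmain : (g : ℝ) * (#S * (#S - 1)) ≤
      2 * (((Q : ℝ) - 1) ^ L * (#S * (D ^ L * (#S - 1)))) := by
    have h1 : (g : ℝ) * (#S * (#S - 1)) ≤ ∑ W1 : Fin L → ZMod Q, ∑ W2 : Fin L → ZMod Q,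
        ((if W2 ∈ N then F W1 else 0) + (if W1 ∈ N then F W2 else 0)) := by
      rw [hgsum, Finset.sum_mul]
      apply Finset.sum_le_sum
      intro W1 _
      rw [Finset.sum_mul]
      apply Finset.sum_le_sum
      intro W2 _
      by_cases hgd : Good Q (Sum.elim W1 W2)
      · rw [if_pos hgd, one_mul, if_pos (hgN W1 W2 hgd).1, if_pos (hgN W1 W2 hgd).2]
        exact hpair W1 W2 hgd
      · rw [if_neg hgd, zero_mul]
        have := hF0 W1
        have := hF0 W2
        split_ifs <;> linarith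
    refine h1.trans ?_
    have h2 : ∑ W1 : Fin L → ZMod Q, ∑ W2 : Fin L → ZMod Q,
        ((if W2 ∈ N then F W1 else 0) + (if W1 ∈ N then F W2 else 0)) =
        2 * (#N * ∑ W, F W) := by
      have e1 : ∀ x : ℝ, ∑ W : Fin L → ZMod Q, (if W ∈ N then x else 0) = #N * x := by
        intro x
        rw [← Finset.sum_filter, Finset.filter_mem_eq_inter, Finset.univ_inter, Finset.sum_const,
          nsmul_eq_mul]
      simp only [Finset.sum_add_distrib, e1]
      rw [← Finset.mul_sum, Finset.sum_comm (f := fun W1 W2 => if W1 ∈ N then F W2 else 0)]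
      simp only [e1]
      rw [← Finset.mul_sum]
      ring
    rw [h2, hNcard]
    have : (0 : ℝ) ≤ ((Q : ℝ) - 1) ^ L := by
      apply pow_nonneg
      rw [hQr]; linarith
    gcongr
  have hg2 : (g : ℝ) ≤ 2 * (((Q : ℝ) - 1) * D) ^ L := by
    rw [mul_pow]
    by_contra hlt
    push Not at hlt
    have := mul_lt_mul_of_pos_right hlt hS1
    nlinarith
  have hgc : (Q - Fintype.card (Fin L ⊕ Fin L)) * Q ^ (Fintype.card (Fin L ⊕ Fin L)) ≤ Q * g := by
    exact good_count (ι := Fin L ⊕ Fin L) Q (by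
      rw [Fintype.card_sum, Fintype.card_fin]; omega)
  rw [Fintype.card_sum, Fintype.card_fin] at hgc
  have e1 : Q - (L + L) = 6 * a := by omega
  have e2 : L + L = 10 * a := by omega
  rw [e1, e2] at hgc
  have hgc' : (6 * a : ℝ) * (16 * a) ^ (10 * a) ≤ (16 * a) * g := by
    have : (((6 * a) * Q ^ (10 * a) : ℕ) : ℝ) ≤ ((Q * g : ℕ) : ℝ) := by exact_mod_cast hgc
    push_cast at this
    rw [hQr] at this
    exact this
  have hnum := numeric a (by omega)
  have : (16 * a : ℝ) * g ≤ 2 * (16 * a : ℝ) * ((16 * a - 1) * (16 * a - 1 - 84 / 25)) ^ (5 * a) := by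
    rw [hD, hQr] at hg2
    have := mul_le_mul_of_nonneg_left hg2 (by positivity : (0 : ℝ) ≤ 16 * a)
    linarith
  linarith

open Classical in
theorem final {V : Type*} [Fintype V] [Nonempty V] (k : ℕ) (E : Fin k → V → V → Prop)
    (hloop : ∀ i v, ¬ E i v v)
    (hdeg : ∀ v, 84 * Fintype.card V ≤ 25 * ∑ i, #{w | E i v w}) :
    ∃ (n : ℕ) (c : Fin n → V) (col : Fin n → Fin k), 2 ≤ n ∧ Function.Injective c ∧
      Function.Injective col ∧ ∀ j : Fin n, E (col j) (c j) (c (finRotate n j)) := by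
  set m : V → V → ℕ := fun v w => #{i | E i v w} with hm
  have hm0 : ∀ v, m v v = 0 := by
    intro v
    simp only [hm, Finset.card_eq_zero, Finset.filter_eq_empty_iff]
    intro i _
    exact hloop i v
  have hmk : ∀ u w, m u w ≤ k := by
    intro u w
    calc m u w ≤ #(Finset.univ : Finset (Fin k)) := Finset.card_filter_le _ _
      _ = k := by simp
  have hd : ∀ v, (84 / 25 : ℝ) * Fintype.card V ≤ ∑ w, (m v w : ℝ) := by
    intro v
    have h1 := hdeg v
    have h2 : ∑ i, #{w | E i v w} = ∑ w, m v w := by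
      simp only [hm, Finset.card_filter]
      rw [Finset.sum_comm]
    rw [h2] at h1
    have h3 : (84 : ℝ) * Fintype.card V ≤ 25 * ∑ w, (m v w : ℝ) := by exact_mod_cast h1
    linarith
  obtain ⟨n, c, hn, hc, hwk, hinj⟩ := closed_to_cycle m hm0 (fun s => s)
    (exists_closed m hm0 k hmk hd)
  set A : Fin n → Finset (Fin k) := fun j => {i | E i (c j.val) (c (j.val + 1))} with hA
  have hAcard : ∀ j, #(A j) = m (c j.val) (c (j.val + 1)) := fun j => rfl
  have hall : ∀ J : Finset (Fin n), #J ≤ #(J.biUnion A) := by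
    intro J
    rcases J.eq_empty_or_nonempty with h | h
    · subst h; simp
    · obtain ⟨j0, hj0, hmax⟩ := Finset.exists_max_image J (fun j => #(A j)) h
      have h1 : #J ≤ #(A j0) := by
        have h2 := hwk.2 (#(A j0))
        have h3 : #J ≤ ∑ j ∈ range n, if m (c j) (c (j + 1)) ≤ #(A j0) then 1 else 0 := by
          rw [← Fin.sum_univ_eq_sum_range
            (fun j => if m (c j) (c (j + 1)) ≤ #(A j0) then 1 else 0) n, ← Finset.card_filter]
          apply Finset.card_le_card
          intro j hj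
          rw [Finset.mem_filter]
          exact ⟨Finset.mem_univ _, by rw [← hAcard]; exact hmax j hj⟩
        exact h3.trans h2
      exact h1.trans (Finset.card_le_card (Finset.subset_biUnion_of_mem A hj0))
  obtain ⟨col, hcol, hcolm⟩ := (Finset.all_card_le_biUnion_card_iff_exists_injective A).mp hall
  refine ⟨n, fun j => c j.val, col, hn, ?_, hcol, ?_⟩
  · intro i j h
    exact Fin.ext (hinj i.val j.val i.2 j.2 h)
  · intro j
    have h1 := hcolm j
    simp only [hA, Finset.mem_filter, Finset.mem_univ, true_and] at h1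
    have h2 : c (finRotate n j).val = c (j.val + 1) := by
      obtain ⟨n', rfl⟩ : ∃ n', n = n' + 1 := ⟨n - 1, by omega⟩
      rw [coe_finRotate]
      split_ifs with h
      · rw [h, Fin.val_last, hc]
      · rfl
    show E (col j) (c j.val) (c (finRotate n j).val)
    rw [h2]
    exact h1

end Pool.Agent.NH69.RB
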